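import Pool.Agent.L0h86.GQ.Stm

set_option autoImplicit false

/-!
# Project GQ, module KEY: the quadratic characters trivial at a place above two
-/

namespace Pool.Agent.L0h66.GQ

open Pool.Agent.L0h86.GQ
open Pool.Agent.Y715.Nr (Au Inert)
open Pool.Agent.Y715.Gi (QB KK GK ev lam kum ev_inj ev_ne not_dvd_two gk_fix)
open Pool.Agent.Y715.Sel (iota_sq iota_ev not_dvd_of_unr odd_of)
open Pool.Agent.R384 (II DD)

/-- a squarefree element whose prime divisors divide `D` divides `D` -/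
lemma sqf_dvd (D z : GaussianInt) (hz : Squarefree z)
    (h : ∀ ρ : GaussianInt, Prime ρ → ρ ∣ z → ρ ∣ D) : z ∣ D := by
  revert hz h
  refine UniqueFactorizationMonoid.induction_on_prime z ?_ ?_ ?_
  · intro h0
    exact absurd rfl h0.ne_zero
  · intro u hu _ _
    exact hu.dvd
  · intro a p ha hp ih hsq hdv
    have hna : ¬ p ∣ a := by
      rintro ⟨w, rfl⟩
      exact hp.not_isUnit (hsq p ⟨w, by ring⟩)
    have h1 : a ∣ D := ih (hsq.squarefree_of_dvd (dvd_mul_left a p))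
      (fun ρ hρ hρa => hdv ρ hρ (hρa.mul_left p))
    have h2 : p ∣ D := hdv p hp (dvd_mul_right p a)
    exact IsCoprime.mul_dvd ((hp.irreducible.coprime_iff_not_dvd).2 hna) h2 h1

theorem t_KEY : S_LSQ → S_KEY := by
  intro hLSQ i₀ hi D hD hD3 f hf hm ι hDD hun
  obtain ⟨z, hz, hzh⟩ := kum hi f hf hm
  have hI := iota_sq hi ι
  obtain ⟨r, hr⟩ := IsAlgClosed.exists_pow_nat_eq (ev i₀ hi z) (n := 2) (by norm_num)
  have hrι : (ι r) ^ 2 = ev (ι i₀) hI z := by rw [← map_pow, hr, iota_ev]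
  have hfix : ∀ τ : Au 2, τ (ι i₀) = ι i₀ → τ (ι r) = ι r := by
    intro τ hτI
    obtain ⟨σ, hc⟩ := Pool.Agent.Y715.Df.exists_cmp ι τ hτI
    rw [hc, (hzh r hr σ).2 (hDD σ ⟨τ, hc⟩)]
  have hl : ¬ lam ∣ z := not_dvd_two hI hz hrι (fun τ _ hτI => hfix τ hτI)
  have hzD : z ∣ D := by
    apply sqf_dvd D z hz
    intro ρ hρ hρz
    by_contra hcon
    have hna : ¬ Associated ρ lam := fun h => hl (h.symm.dvd.trans hρz)
    obtain ⟨p, hp, κ, hκ⟩ := Pool.Agent.Y715.Df.exists_emb hi hρ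
    have hp2 := odd_of hi κ hρ hκ hna
    exact not_dvd_of_unr hz hzh hp2 κ hρ hκ
      (fun τ σ hc hτ => hun ρ hρ hcon p κ hp2 hκ σ ⟨τ, hc, hτ⟩) hρz
  have hfin : ∀ d : GaussianInt, lam ^ 5 ∣ d - 1 → d ∣ D →
      (∀ t : QB, t ^ 2 = ev i₀ hi d → ∀ σ : GK i₀, (σ t = t ↔ f σ = 0)) →
      ∃ d d' : GaussianInt, lam ^ 3 ∣ d - 1 ∧ lam ^ 3 ∣ d' - 1 ∧ D = d * d' ∧ lam ^ 5 ∣ d - 1 ∧
        ∀ t : QB, t ^ 2 = ev i₀ hi d → ∀ σ : GK i₀, (σ t = t ↔ f σ = 0) := by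
    rintro d hd5 ⟨d', rfl⟩ ht
    have hd3 : lam ^ 3 ∣ d - 1 := (pow_dvd_pow lam (by norm_num)).trans hd5
    refine ⟨d, d', hd3, ?_, rfl, hd5, ht⟩
    have e : d' - 1 = (d * d' - 1) - (d - 1) * d' := by ring
    rw [e]
    exact dvd_sub hD3 (hd3.mul_right d')
  rcases hLSQ (ι i₀) hI z (ι r) hrι hfix hl with h1 | h1
  · exact hfin z h1 hzD hzh
  · refine hfin (-z) ?_ ((neg_dvd).2 hzD) ?_
    · have e : -z - 1 = -(z + 1) := by ring
      rw [e]
      exact (dvd_neg).2 h1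
    · intro t ht σ
      have hi0 : i₀ ≠ 0 := by
        rintro rfl
        norm_num at hi
      have hs : (i₀ * t) ^ 2 = ev i₀ hi z := by
        rw [mul_pow, hi, ht, map_neg]
        ring
      rw [← hzh _ hs σ, map_mul, gk_fix]
      exact (mul_right_inj' hi0).symm

end Pool.Agent.L0h66.GQ
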